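import Mathlib

/-!
# The conformal symplectic Weinstein conjecture is false

We construct, on the four-torus `S¹ × S¹ × S¹ × S¹`, an exact locally conformally symplectic
structure `(lam, al)` with `al` rational which has no Reeb curve.

The example, in angular coordinates `(x, y, z, t)`, is
`lam = exp f · (cos z dx + sin z dy)`, `al = (1 / 2π) dt`, with
`f (x, y, t) = (1/1000) ∑ i, φ i (x, y) * Ψ i (t)`, where
`φ i (x, y) = (1 - cos (x - a i)) (1 - cos (y - a i))` for three different angles `a i`, and the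
derivative of `Ψ i` is non-negative only on an arc `J i`, the three arcs being disjoint.

At a point of a Reeb curve `o = (x, y, z, t)` one has `∂f/∂t = 0`, and
`(x', y') = a (cos z, sin z)`, `z' = a (- sin z ∂f/∂x + cos z ∂f/∂y)` with `a > 0`.
The zero set of `∂f/∂t` splits into three closed pieces, the `i`-th of which lies over the
open square `{x ≠ a i, y ≠ a i}` of the `(x, y)`-torus. So a closed Reeb curve would project to a
closed curve in a square, whereas its planar direction turns too slowly for that.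

The definitions needed for the statement are in the first section, for an arbitrary manifold `M`
modelled on a normed space `E` (in Mathlib's sense).
-/

open scoped Manifold ContDiff Topology
open Set

namespace Pool.Agent.Results.MP_910a86_gt.TorusCounterexample

noncomputable section

/-! ## Definitions -/

variable {E : Type*} [NormedAddCommGroup E] [NormedSpace ℝ E]
  {H : Type*} [TopologicalSpace H] (I : ModelWithCorners ℝ E H)
  (M : Type*) [TopologicalSpace M] [ChartedSpace H M]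

/-- `M` (with its charts, modelled on `I`) is a closed (compact, without boundary), Hausdorff,
connected, smooth (`C^∞`) manifold whose dimension is the natural number `n`. -/
structure IsClosedManifold (n : ℕ) : Prop where
  smooth : IsManifold I ∞ M
  boundaryless : I.Boundaryless
  compact : CompactSpace M
  hausdorff : T2Space M
  connected : ConnectedSpace M
  finiteDimensional : FiniteDimensional ℝ E
  dim : Module.finrank ℝ E = n

/-- A (not necessarily smooth) `1`-form on the manifold `M`: a linear form on every tangent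
space. -/
abbrev OneForm := (p : M) → TangentSpace I p →L[ℝ] ℝ

variable {I M}

/-- The coordinate expression of a `1`-form in the preferred chart at `x₀`: its pullback by the
inverse of the chart, at the point `y` of the model space `E`. -/
def OneForm.inChart (β : OneForm I M) (x₀ : M) (y : E) : E →L[ℝ] ℝ :=
  (β ((extChartAt I x₀).symm y)).comp (mfderiv 𝓘(ℝ, E) I (extChartAt I x₀).symm y)

/-- A linear form, seen as an alternating `1`-form (to feed Mathlib's `extDeriv`). -/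
def asAlternating (ℓ : E →L[ℝ] ℝ) : E [⋀^Fin 1]→L[ℝ] ℝ :=
  ContinuousAlternatingMap.ofSubsingleton ℝ E ℝ (0 : Fin 1) ℓ

/-- A `1`-form is smooth if all its coordinate expressions are smooth. -/
def OneForm.IsSmooth (β : OneForm I M) : Prop :=
  ∀ x₀ : M, ContDiffOn ℝ ∞ (β.inChart x₀) (extChartAt I x₀).target

/-- The derivative at `p` of the preferred chart at `p`. -/
def dChart (p : M) (v : TangentSpace I p) : E := mfderiv I 𝓘(ℝ, E) (extChartAt I p) p v

/-- The exterior derivative `dβ_p(v, w)` of a `1`-form `β` on `M`: the exterior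
derivative (Mathlib's `extDeriv`) of the coordinate expression of `β` in the chart at `p`,
evaluated at the vectors corresponding to `v` and `w` in the chart. -/
def OneForm.d (β : OneForm I M) (p : M) (v w : TangentSpace I p) : ℝ :=
  extDeriv (fun y => asAlternating (β.inChart p y)) (extChartAt I p p) ![dChart p v, dChart p w]

/-- The `2`-form `ω = d lam - al ∧ lam`. -/
def lcsForm (lam al : OneForm I M) (p : M) (v w : TangentSpace I p) : ℝ :=
  lam.d p v w - (al p v * lam p w - al p w * lam p v)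

/-- `(lam, al)` is an exact locally conformally symplectic structure on `M`: both `1`-forms are
smooth, `al` is closed, and the `2`-form `ω = d lam - al ∧ lam` is non-degenerate. -/
def IsExactLCS (lam al : OneForm I M) : Prop :=
  lam.IsSmooth ∧ al.IsSmooth ∧ (∀ p v w, al.d p v w = 0) ∧
    ∀ p v, (∀ w, lcsForm lam al p v w = 0) → v = 0

/-- The velocity `γ'(t)` of a curve in `M`. -/
def velocity (γ : ℝ → M) (t : ℝ) : TangentSpace I (γ t) := mfderiv 𝓘(ℝ, ℝ) I γ t (1 : ℝ)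

/-- The integral of the `1`-form `al` over the loop `γ : ℝ / ℤ → M`. -/
def period (al : OneForm I M) (γ : ℝ → M) : ℝ := ∫ t in (0 : ℝ)..1, al (γ t) (velocity γ t)

/-- The `1`-form `al` is rational: all its periods over (continuously differentiable) loops
`γ : ℝ / ℤ → M` are rational numbers. -/
def IsRational (al : OneForm I M) : Prop :=
  ∀ γ : ℝ → M, ContMDiff 𝓘(ℝ, ℝ) I 1 γ → (∀ t, γ (t + 1) = γ t) → ∃ q : ℚ, period al γ = q

/-- The space `V_λ(p)`: the kernel of `d lam` at `p`. -/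
def kerD (lam : OneForm I M) (p : M) : Set (TangentSpace I p) := {v | ∀ w, lam.d p v w = 0}

/-- The cone `C_λ(p)`: the vectors of `V_λ(p)` on which `lam` is positive. -/
def reebCone (lam : OneForm I M) (p : M) : Set (TangentSpace I p) :=
  {v | v ∈ kerD lam p ∧ 0 < lam p v}

/-- `o` is a Reeb curve for `lam`: a smooth map from the circle `ℝ / ℤ` to `M` (given as a smooth
map `o : ℝ → M` with `o (t + 1) = o t`) with `o'(t) ∈ C_λ(o(t))` for every `t`. -/
def IsReebCurve (lam : OneForm I M) (o : ℝ → M) : Prop :=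
  ContMDiff 𝓘(ℝ, ℝ) I ∞ o ∧ (∀ t, o (t + 1) = o t) ∧ ∀ t, velocity o t ∈ reebCone lam (o t)

/-! ## General lemmas -/

/-- The differential of a smooth function is a smooth form. -/
theorem isSmooth_mfderiv [I.Boundaryless] [IsManifold I ∞ M] {F : M → ℝ}
    (hF : ContMDiff I 𝓘(ℝ, ℝ) ∞ F) :
    OneForm.IsSmooth (I := I) (fun p => mfderiv I 𝓘(ℝ, ℝ) F p) := by
  intro x₀
  have hopen : IsOpen (extChartAt I x₀).target := isOpen_extChartAt_target x₀
  have hsymm := contMDiffOn_extChartAt_symm (I := I) (n := ∞) x₀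
  have hF' : ContDiffOn ℝ ∞ (F ∘ (extChartAt I x₀).symm) (extChartAt I x₀).target := by
    have := hF.comp_contMDiffOn hsymm
    exact contMDiffOn_iff_contDiffOn.1 this
  have hdF : ContDiffOn ℝ ∞ (fderiv ℝ (F ∘ (extChartAt I x₀).symm)) (extChartAt I x₀).target :=
    hF'.fderiv_of_isOpen hopen (by simp)
  refine hdF.congr ?_
  intro y hy
  have hmd : MDifferentiableAt 𝓘(ℝ, E) I (extChartAt I x₀).symm y :=
    ((hsymm y hy).contMDiffAt (hopen.mem_nhds hy)).mdifferentiableAt (by simp)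
  have hFd : MDifferentiableAt I 𝓘(ℝ, ℝ) F ((extChartAt I x₀).symm y) :=
    (hF _).mdifferentiableAt (by simp)
  have key : (mfderiv 𝓘(ℝ, E) 𝓘(ℝ, ℝ) (F ∘ (extChartAt I x₀).symm) y)
      = (mfderiv I 𝓘(ℝ, ℝ) F ((extChartAt I x₀).symm y)).comp
        (mfderiv 𝓘(ℝ, E) I (extChartAt I x₀).symm y) := mfderiv_comp y hFd hmd
  rw [mfderiv_eq_fderiv] at key
  rw [key]
  rfl

theorem IsSmooth.smul' [IsManifold I ∞ M] {g : M → ℝ} {β : OneForm I M}
    (hg : ContMDiff I 𝓘(ℝ, ℝ) ∞ g) (hβ : β.IsSmooth) :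
    OneForm.IsSmooth (I := I) (fun p => g p • β p) := by
  intro x₀
  have hsymm := contMDiffOn_extChartAt_symm (I := I) (n := ∞) x₀
  have hg' : ContDiffOn ℝ ∞ (g ∘ (extChartAt I x₀).symm) (extChartAt I x₀).target := by
    have := hg.comp_contMDiffOn hsymm
    exact contMDiffOn_iff_contDiffOn.1 this
  refine (hg'.smul (hβ x₀)).congr ?_
  intro y _
  ext u
  rfl

theorem IsSmooth.add' {β₁ β₂ : OneForm I M}
    (h₁ : β₁.IsSmooth) (h₂ : β₂.IsSmooth) :
    OneForm.IsSmooth (I := I) (fun p => β₁ p + β₂ p) := by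
  intro x₀
  refine ((h₁ x₀).add (h₂ x₀)).congr ?_
  intro y _
  ext u
  rfl

/-- The pullback of a `1`-form to a normed space. -/
def OneForm.pull {V : Type*} [NormedAddCommGroup V] [NormedSpace ℝ V] (β : OneForm I M)
    (F : V → M) : V → V →L[ℝ] ℝ :=
  fun x => (β (F x)).comp (mfderiv 𝓘(ℝ, V) I F x)

theorem differentiable_asAlternating {V : Type*} [NormedAddCommGroup V] [NormedSpace ℝ V] :
    Differentiable ℝ (asAlternating : (V →L[ℝ] ℝ) → V [⋀^Fin 1]→L[ℝ] ℝ) :=
  (ContinuousAlternatingMap.ofSubsingletonLIE (𝕜 := ℝ) (E := V) (F := ℝ)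
    (0 : Fin 1)).contDiff (n := 1) |>.differentiable (by simp)

theorem extDeriv_asAlternating_apply {V : Type*} [NormedAddCommGroup V] [NormedSpace ℝ V]
    {g : V → V →L[ℝ] ℝ} {x : V} (hg : DifferentiableAt ℝ g x) (v w : V) :
    extDeriv (fun y => asAlternating (g y)) x ![v, w]
      = fderiv ℝ g x v w - fderiv ℝ g x w v := by
  have hd : DifferentiableAt ℝ (fun y => asAlternating (g y)) x :=
    (differentiable_asAlternating (g x)).comp x hg
  rw [extDeriv_apply hd]
  rw [Fin.sum_univ_two]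
  have h1 : ∀ u z : V, fderiv ℝ (fun y => g y u) x z = fderiv ℝ g x z u := by
    intro u z
    rw [fderiv_clm_apply hg (by fun_prop)]
    simp
  simp [Fin.removeNth, h1, sub_eq_add_neg, asAlternating]

/-- Naturality of the exterior derivative: for a smooth map `F` from a normed space to `M`, the
pullback of `dβ` is the usual exterior derivative of the pullback of `β`. -/
theorem d_pull [I.Boundaryless] [IsManifold I ∞ M] {V : Type*} [NormedAddCommGroup V]
    [NormedSpace ℝ V] {β : OneForm I M} (hβ : β.IsSmooth) {F : V → M}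
    (hF : ContMDiff 𝓘(ℝ, V) I ∞ F) (x : V) :
    DifferentiableAt ℝ (β.pull F) x ∧ ∀ v w : V,
    β.d (F x) (mfderiv 𝓘(ℝ, V) I F x v) (mfderiv 𝓘(ℝ, V) I F x w)
      = fderiv ℝ (β.pull F) x v w - fderiv ℝ (β.pull F) x w v := by
  set p : M := F x with hp
  set φ := extChartAt I p with hφ
  -- the map read in the chart
  set ψ : V → E := φ ∘ F with hψ
  have hopen : IsOpen φ.target := isOpen_extChartAt_target p
  have hsymm := contMDiffOn_extChartAt_symm (I := I) (n := ∞) p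
  have hsrc : ∀ᶠ y in 𝓝 x, F y ∈ φ.source :=
    hF.continuous.continuousAt (extChartAt_source_mem_nhds (I := I) p)
  have hψc : ContDiffAt ℝ ∞ ψ x := by
    have h1 : ContMDiffAt I 𝓘(ℝ, E) ∞ φ (F x) := contMDiffAt_extChartAt
    exact contMDiffAt_iff_contDiffAt.1 (h1.comp x (hF x))
  have hψm : ψ x ∈ φ.target := φ.map_source (mem_extChartAt_source p)
  have hdiff1 : DifferentiableAt ℝ (β.inChart p) (ψ x) :=
    ((hβ p).contDiffAt (hopen.mem_nhds hψm)).differentiableAt (by simp)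
  have hdiff : DifferentiableAt ℝ (fun y => asAlternating (β.inChart p y)) (ψ x) :=
    (differentiable_asAlternating _).comp (ψ x) hdiff1
  have h2 : (2 : ℕ∞ω) ≤ ∞ := WithTop.coe_le_coe.2 (le_top : (2 : ℕ∞) ≤ ⊤)
  have hpb := extDeriv_pullback (r := ∞) hdiff hψc (by simpa using h2)
  have hFm : ∀ y, MDifferentiableAt 𝓘(ℝ, V) I F y := fun y => (hF y).mdifferentiableAt (by simp)
  -- near `x`, the derivative of `F` factors through the chart
  have hfact : ∀ᶠ y in 𝓝 x, ∀ u : V, (mfderiv 𝓘(ℝ, V) I F y u : E) =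
      (mfderiv 𝓘(ℝ, E) I φ.symm (ψ y) (fderiv ℝ ψ y u) : E) := by
    filter_upwards [hsrc.eventually_nhds] with y hy u
    have hyy : F y ∈ φ.source := hy.self_of_nhds
    have hEq : F =ᶠ[𝓝 y] φ.symm ∘ ψ := by
      filter_upwards [hy] with z hz
      exact (φ.left_inv hz).symm
    have hψy : MDifferentiableAt 𝓘(ℝ, V) 𝓘(ℝ, E) ψ y := by
      have h1 : ContMDiffAt I 𝓘(ℝ, E) ∞ φ (F y) := contMDiffAt_extChartAt' (by
        simpa [hφ] using hyy)
      exact (h1.comp y (hF y)).mdifferentiableAt (by simp)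
    have hsy : MDifferentiableAt 𝓘(ℝ, E) I φ.symm (ψ y) :=
      ((hsymm (ψ y) (φ.map_source hyy)).contMDiffAt
        (hopen.mem_nhds (φ.map_source hyy))).mdifferentiableAt (by simp)
    rw [hEq.mfderiv_eq, mfderiv_comp y hsy hψy, mfderiv_eq_fderiv]
    rfl
  have hpull : ∀ᶠ y in 𝓝 x, β.pull F y = (β.inChart p (ψ y)).comp (fderiv ℝ ψ y) := by
    filter_upwards [hfact, hsrc] with y hy hys
    have hpt : φ.symm (ψ y) = F y := φ.left_inv hys
    refine ContinuousLinearMap.ext fun u => ?_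
    have h3 : ∀ q : M, q = F y → ∀ e : E, (β q e : ℝ) = β (F y) e := by
      rintro q rfl e
      rfl
    have h4 := h3 _ hpt (mfderiv 𝓘(ℝ, E) I φ.symm (ψ y) (fderiv ℝ ψ y u))
    have h5 := hy u
    have h6 : (β (F y) : E →L[ℝ] ℝ) (mfderiv 𝓘(ℝ, E) I φ.symm (ψ y) (fderiv ℝ ψ y u))
        = (β (F y) : E →L[ℝ] ℝ) (mfderiv 𝓘(ℝ, V) I F y u) :=
      congrArg (β (F y) : E →L[ℝ] ℝ) h5.symm
    exact (h4.trans h6).symm
  have hev : (fun y => (asAlternating (β.inChart p (ψ y))).compContinuousLinearMap (fderiv ℝ ψ y))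
      =ᶠ[𝓝 x] fun y => asAlternating (β.pull F y) := by
    filter_upwards [hpull] with y hy
    rw [hy]
    ext u
    rfl
  have hdpull : DifferentiableAt ℝ (β.pull F) x := by
    have hd0 : DifferentiableAt ℝ (fderiv ℝ ψ) x := by
      have := hψc.fderiv_right (m := 1) (by
        have : (1 : ℕ∞ω) + 1 = 2 := by norm_num
        rw [this]; exact h2)
      exact this.differentiableAt (by simp)
    have hd1 : DifferentiableAt ℝ (fun y => (β.inChart p (ψ y)).comp (fderiv ℝ ψ y)) x :=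
      (hdiff1.comp x (hψc.differentiableAt (by simp))).clm_comp hd0
    exact hd1.congr_of_eventuallyEq hpull
  refine ⟨hdpull, fun v w => ?_⟩
  rw [hev.extDeriv_eq] at hpb
  rw [← extDeriv_asAlternating_apply hdpull, hpb]
  have hψ' : ∀ u : V, dChart p (mfderiv 𝓘(ℝ, V) I F x u) = fderiv ℝ ψ x u := by
    intro u
    have h6 : mfderiv 𝓘(ℝ, V) 𝓘(ℝ, E) ψ x =
        (mfderiv I 𝓘(ℝ, E) φ (F x)).comp (mfderiv 𝓘(ℝ, V) I F x) :=
      mfderiv_comp x (contMDiffAt_extChartAt.mdifferentiableAt (n := ∞) (by simp)) (hFm x)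
    rw [mfderiv_eq_fderiv] at h6
    rw [h6]
    rfl
  simp only [OneForm.d, ContinuousAlternatingMap.compContinuousLinearMap_apply]
  have hfin : ∀ (g : Fin 2 → E), g = ![fderiv ℝ ψ x v, fderiv ℝ ψ x w] →
     (extDeriv (fun y => asAlternating (β.inChart p y)) (ψ x)) g =
      (extDeriv (fun y => asAlternating (β.inChart p y)) (ψ x)) ![fderiv ℝ ψ x v, fderiv ℝ ψ x w] := by
    rintro g rfl
    rfl
  refine (hfin _ ?_).trans (hfin _ ?_).symm
  · funext i
    fin_cases i
    · exact hψ' v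
    · exact hψ' w
  · funext i
    fin_cases i <;> rfl

/-- The differential of a function. -/
def dd (F : M → ℝ) : OneForm I M := fun p => mfderiv I 𝓘(ℝ, ℝ) F p

/-- The angular form of a circle valued function. -/
def ang (c : M → Circle) : OneForm I M := fun p =>
  (c p : ℂ).re • dd (I := I) (fun q => (c q : ℂ).im) p
    - (c p : ℂ).im • dd (I := I) (fun q => (c q : ℂ).re) p

section
attribute [local instance] finrank_real_complex_fact'

theorem contMDiff_coe_circle {n : ℕ∞ω} : ContMDiff (𝓡 1) 𝓘(ℝ, ℂ) n (fun c : Circle => (c : ℂ)) :=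
  contMDiff_coe_sphere (E := ℂ)

end

theorem contMDiff_re {c : M → Circle} {n : ℕ∞ω} (hc : ContMDiff I (𝓡 1) n c) :
    ContMDiff I 𝓘(ℝ, ℝ) n (fun q => (c q : ℂ).re) := by
  have h1 : ContMDiff I 𝓘(ℝ, ℂ) n (fun q => (c q : ℂ)) := contMDiff_coe_circle.comp hc
  exact (Complex.reCLM.contDiff.contMDiff).comp h1

theorem contMDiff_im {c : M → Circle} {n : ℕ∞ω} (hc : ContMDiff I (𝓡 1) n c) :
    ContMDiff I 𝓘(ℝ, ℝ) n (fun q => (c q : ℂ).im) := by
  have h1 : ContMDiff I 𝓘(ℝ, ℂ) n (fun q => (c q : ℂ)) := contMDiff_coe_circle.comp hc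
  exact (Complex.imCLM.contDiff.contMDiff).comp h1

theorem isSmooth_ang [I.Boundaryless] [IsManifold I ∞ M] {c : M → Circle}
    (hc : ContMDiff I (𝓡 1) ∞ c) : (ang c : OneForm I M).IsSmooth := by
  have h1 := IsSmooth.smul' (contMDiff_re hc) (isSmooth_mfderiv (contMDiff_im hc))
  have h2 := IsSmooth.smul' (contMDiff_im hc).neg (isSmooth_mfderiv (contMDiff_re hc))
  have h3 := IsSmooth.add' h1 h2
  convert h3 using 2 with p
  simp only [ang, sub_eq_add_neg, dd]
  congr 1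
  exact (neg_smul _ _).symm

/-- Value of an angular form on the image of a vector under a map from a normed space. -/
theorem ang_mfderiv {V : Type*} [NormedAddCommGroup V] [NormedSpace ℝ V] {c : M → Circle}
    (hc : ContMDiff I (𝓡 1) ∞ c) {F : V → M} {x : V} (hF : MDifferentiableAt 𝓘(ℝ, V) I F x) (v : V) :
    ang c (F x) (mfderiv 𝓘(ℝ, V) I F x v) =
      (c (F x) : ℂ).re * fderiv ℝ (fun y => (c (F y) : ℂ).im) x v
       - (c (F x) : ℂ).im * fderiv ℝ (fun y => (c (F y) : ℂ).re) x v := by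
  have h1 : mfderiv 𝓘(ℝ, V) 𝓘(ℝ, ℝ) ((fun q => (c q : ℂ).im) ∘ F) x = _ :=
    mfderiv_comp x ((contMDiff_im hc (F x)).mdifferentiableAt (by simp)) hF
  have h2 : mfderiv 𝓘(ℝ, V) 𝓘(ℝ, ℝ) ((fun q => (c q : ℂ).re) ∘ F) x = _ :=
    mfderiv_comp x ((contMDiff_re hc (F x)).mdifferentiableAt (by simp)) hF
  rw [mfderiv_eq_fderiv] at h1 h2
  have h3 : fderiv ℝ (fun y => (c (F y) : ℂ).im) x v =
      mfderiv I 𝓘(ℝ, ℝ) (fun q => (c q : ℂ).im) (F x) (mfderiv 𝓘(ℝ, V) I F x v) :=
    congrArg (fun L : V →L[ℝ] ℝ => L v) h1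
  have h4 : fderiv ℝ (fun y => (c (F y) : ℂ).re) x v =
      mfderiv I 𝓘(ℝ, ℝ) (fun q => (c q : ℂ).re) (F x) (mfderiv 𝓘(ℝ, V) I F x v) :=
    congrArg (fun L : V →L[ℝ] ℝ => L v) h2
  rw [h3, h4]
  rfl

/-! ## The four-torus -/

/-- The four-torus, as a product of four copies of the unit circle. -/
abbrev T4 : Type := Circle × Circle × Circle × Circle

/-- The model with corners of the manifold `T4`: the product of four copies of `𝓡 1`. -/
abbrev I4 := (𝓡 1).prod ((𝓡 1).prod ((𝓡 1).prod (𝓡 1)))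

/-- The universal cover of the torus. -/
abbrev V4 : Type := ℝ × ℝ × ℝ × ℝ

/-- The covering -/
def cov (q : V4) : T4 := (Circle.exp q.1, Circle.exp q.2.1, Circle.exp q.2.2.1, Circle.exp q.2.2.2)

def cx (p : T4) : Circle := p.1
def cy (p : T4) : Circle := p.2.1
def cz (p : T4) : Circle := p.2.2.1
def ct (p : T4) : Circle := p.2.2.2

theorem smooth_cx : ContMDiff I4 (𝓡 1) ∞ cx := contMDiff_fst
theorem smooth_cy : ContMDiff I4 (𝓡 1) ∞ cy := contMDiff_fst.comp contMDiff_snd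
theorem smooth_cz : ContMDiff I4 (𝓡 1) ∞ cz := contMDiff_fst.comp (contMDiff_snd.comp contMDiff_snd)
theorem smooth_ct : ContMDiff I4 (𝓡 1) ∞ ct := contMDiff_snd.comp (contMDiff_snd.comp contMDiff_snd)

theorem smooth_cov : ContMDiff 𝓘(ℝ, V4) I4 ∞ cov := by
  have h1 : ContMDiff 𝓘(ℝ, V4) 𝓘(ℝ, ℝ) ∞ (fun q : V4 => q.1) := (contDiff_fst).contMDiff
  have h2 : ContMDiff 𝓘(ℝ, V4) 𝓘(ℝ, ℝ) ∞ (fun q : V4 => q.2.1) := (contDiff_fst.comp contDiff_snd).contMDiff
  have h3 : ContMDiff 𝓘(ℝ, V4) 𝓘(ℝ, ℝ) ∞ (fun q : V4 => q.2.2.1) := (contDiff_fst.comp (contDiff_snd.comp contDiff_snd)).contMDiff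
  have h4 : ContMDiff 𝓘(ℝ, V4) 𝓘(ℝ, ℝ) ∞ (fun q : V4 => q.2.2.2) := (contDiff_snd.comp (contDiff_snd.comp contDiff_snd)).contMDiff
  exact (contMDiff_circleExp.comp h1).prodMk ((contMDiff_circleExp.comp h2).prodMk
    ((contMDiff_circleExp.comp h3).prodMk (contMDiff_circleExp.comp h4)))

theorem cov_surjective : Function.Surjective cov := by
  rintro ⟨x, y, z, t⟩
  obtain ⟨x', rfl⟩ := Circle.exp_surjective x
  obtain ⟨y', rfl⟩ := Circle.exp_surjective y
  obtain ⟨z', rfl⟩ := Circle.exp_surjective z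
  obtain ⟨t', rfl⟩ := Circle.exp_surjective t
  exact ⟨(x', y', z', t'), rfl⟩

theorem circle_exp_re (x : ℝ) : (Circle.exp x : ℂ).re = Real.cos x := by
  rw [Circle.coe_exp]; exact Complex.exp_ofReal_mul_I_re x

theorem circle_exp_im (x : ℝ) : (Circle.exp x : ℂ).im = Real.sin x := by
  rw [Circle.coe_exp]; exact Complex.exp_ofReal_mul_I_im x

theorem ang_cov {c : T4 → Circle} (hc : ContMDiff I4 (𝓡 1) ∞ c) (l : V4 →L[ℝ] ℝ)
    (hl : ∀ q, c (cov q) = Circle.exp (l q)) (q v : V4) :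
    ang c (cov q) (mfderiv 𝓘(ℝ, V4) I4 cov q v) = l v := by
  rw [ang_mfderiv hc ((smooth_cov q).mdifferentiableAt (by simp))]
  simp only [hl, circle_exp_re, circle_exp_im]
  have h1 : HasFDerivAt (fun y : V4 => Real.sin (l y)) (Real.cos (l q) • l) q :=
    (Real.hasDerivAt_sin (l q)).comp_hasFDerivAt q l.hasFDerivAt
  have h2 : HasFDerivAt (fun y : V4 => Real.cos (l y)) (-Real.sin (l q) • l) q :=
    (Real.hasDerivAt_cos (l q)).comp_hasFDerivAt q l.hasFDerivAt
  rw [h1.fderiv, h2.fderiv]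
  simp only [_root_.smul_apply, smul_eq_mul]
  have := Real.sin_sq_add_cos_sq (l q)
  linear_combination (l v) * this

def l1 : V4 →L[ℝ] ℝ := ContinuousLinearMap.fst ℝ ℝ (ℝ × ℝ × ℝ)
def l2 : V4 →L[ℝ] ℝ := (ContinuousLinearMap.fst ℝ ℝ (ℝ × ℝ)).comp (ContinuousLinearMap.snd ℝ ℝ (ℝ × ℝ × ℝ))
def l3 : V4 →L[ℝ] ℝ := ((ContinuousLinearMap.fst ℝ ℝ ℝ).comp (ContinuousLinearMap.snd ℝ ℝ (ℝ × ℝ))).comp (ContinuousLinearMap.snd ℝ ℝ (ℝ × ℝ × ℝ))
def l4 : V4 →L[ℝ] ℝ := ((ContinuousLinearMap.snd ℝ ℝ ℝ).comp (ContinuousLinearMap.snd ℝ ℝ (ℝ × ℝ))).comp (ContinuousLinearMap.snd ℝ ℝ (ℝ × ℝ × ℝ))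

theorem ang_cx (q v : V4) : ang cx (cov q) (mfderiv 𝓘(ℝ, V4) I4 cov q v) = v.1 :=
  ang_cov smooth_cx l1 (fun _ => rfl) q v
theorem ang_cy (q v : V4) : ang cy (cov q) (mfderiv 𝓘(ℝ, V4) I4 cov q v) = v.2.1 :=
  ang_cov smooth_cy l2 (fun _ => rfl) q v
theorem ang_cz (q v : V4) : ang cz (cov q) (mfderiv 𝓘(ℝ, V4) I4 cov q v) = v.2.2.1 :=
  ang_cov smooth_cz l3 (fun _ => rfl) q v
theorem ang_ct (q v : V4) : ang ct (cov q) (mfderiv 𝓘(ℝ, V4) I4 cov q v) = v.2.2.2 :=
  ang_cov smooth_ct l4 (fun _ => rfl) q v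

abbrev E4 : Type := EuclideanSpace ℝ (Fin 1) × EuclideanSpace ℝ (Fin 1) ×
  EuclideanSpace ℝ (Fin 1) × EuclideanSpace ℝ (Fin 1)

theorem mfderiv_cov_injective (q : V4) : Function.Injective (mfderiv 𝓘(ℝ, V4) I4 cov q) := by
  rw [injective_iff_map_eq_zero]
  intro v hv
  have h1 := ang_cx q v
  have h2 := ang_cy q v
  have h3 := ang_cz q v
  have h4 := ang_ct q v
  rw [hv, map_zero] at h1 h2 h3 h4
  exact Prod.ext h1.symm (Prod.ext h2.symm (Prod.ext h3.symm h4.symm))

theorem mfderiv_cov_surjective (q : V4) : Function.Surjective (mfderiv 𝓘(ℝ, V4) I4 cov q) := by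
  have hinj := mfderiv_cov_injective q
  have h : Module.finrank ℝ V4 = Module.finrank ℝ E4 := by simp
  let L : V4 →L[ℝ] E4 := mfderiv 𝓘(ℝ, V4) I4 cov q
  have hL : Function.Injective (L : V4 →ₗ[ℝ] E4) := hinj
  exact (LinearMap.injective_iff_surjective_of_finrank_eq_finrank h).1 hL

/-! ## The counterexample

The three unit vectors `(aa i, bb i)` are `(cos a_i, sin a_i)` for the three angles `a_i`. -/

def aa : Fin 3 → ℝ := ![1, -3/5, -3/5]
def bb : Fin 3 → ℝ := ![0, 4/5, -4/5]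

theorem aabb (i : Fin 3) : aa i ^ 2 + bb i ^ 2 = 1 := by
  fin_cases i <;> norm_num [aa, bb]

/-- `Psi (cos u) (sin u)` is a primitive (with respect to `u`) of `chi (cos u)`. -/
def Psi (c s : ℝ) : ℝ := 6/5 * s - 2/5 * s ^ 3 + s * c

/-- The conformal exponent, a function on the torus. -/
def ff (p : T4) : ℝ := (1/1000) * ∑ i, (1 - (aa i * (cx p : ℂ).re + bb i * (cx p : ℂ).im)) *
  (1 - (aa i * (cy p : ℂ).re + bb i * (cy p : ℂ).im)) *
  Psi (aa i * (ct p : ℂ).re + bb i * (ct p : ℂ).im) (aa i * (ct p : ℂ).im - bb i * (ct p : ℂ).re)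

/-- The form `exp f (cos z dx + sin z dy)`. -/
def lam : OneForm I4 T4 := fun p =>
  Real.exp (ff p) • ((cz p : ℂ).re • ang cx p + (cz p : ℂ).im • ang cy p)

/-- The form `dt / 2π`. -/
def al : OneForm I4 T4 := fun p => (1 / (2 * Real.pi)) • ang ct p

theorem smooth_lin {c : T4 → Circle} (hc : ContMDiff I4 (𝓡 1) ∞ c) (a b : ℝ) :
    ContMDiff I4 𝓘(ℝ, ℝ) ∞ (fun p => a * (c p : ℂ).re + b * (c p : ℂ).im) := by
  exact (contMDiff_const.mul (contMDiff_re hc)).add (contMDiff_const.mul (contMDiff_im hc))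

theorem smooth_Psi {u v : T4 → ℝ} (hu : ContMDiff I4 𝓘(ℝ, ℝ) ∞ u) (hv : ContMDiff I4 𝓘(ℝ, ℝ) ∞ v) :
    ContMDiff I4 𝓘(ℝ, ℝ) ∞ (fun p => Psi (u p) (v p)) := by
  have hP : ContDiff ℝ ∞ (fun w : ℝ × ℝ => Psi w.1 w.2) := by
    unfold Psi
    fun_prop
  exact hP.contMDiff.comp (hu.prodMk_space hv)

theorem smooth_ff : ContMDiff I4 𝓘(ℝ, ℝ) ∞ ff := by
  unfold ff
  refine contMDiff_const.mul (contMDiff_finsetSum fun i _ => ?_)
  refine ((contMDiff_const.sub (smooth_lin smooth_cx _ _)).mul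
    (contMDiff_const.sub (smooth_lin smooth_cy _ _))).mul (smooth_Psi (smooth_lin smooth_ct _ _) ?_)
  exact (contMDiff_const.mul (contMDiff_im smooth_ct)).sub (contMDiff_const.mul (contMDiff_re smooth_ct))

theorem smooth_lam : lam.IsSmooth := by
  have h1 : ContMDiff I4 𝓘(ℝ, ℝ) ∞ (fun p => Real.exp (ff p)) :=
    Real.contDiff_exp.contMDiff.comp smooth_ff
  have h2 := IsSmooth.smul' (contMDiff_re smooth_cz) (isSmooth_ang smooth_cx)
  have h3 := IsSmooth.smul' (contMDiff_im smooth_cz) (isSmooth_ang smooth_cy)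
  exact IsSmooth.smul' h1 (IsSmooth.add' h2 h3)

theorem smooth_al : al.IsSmooth :=
  IsSmooth.smul' contMDiff_const (isSmooth_ang smooth_ct)

/-! ### The forms in the coordinates of the covering -/

def AA (i : Fin 3) (x : ℝ) : ℝ := 1 - (aa i * Real.cos x + bb i * Real.sin x)
def AA' (i : Fin 3) (x : ℝ) : ℝ := aa i * Real.sin x - bb i * Real.cos x
def cc (i : Fin 3) (t : ℝ) : ℝ := aa i * Real.cos t + bb i * Real.sin t
def ss (i : Fin 3) (t : ℝ) : ℝ := aa i * Real.sin t - bb i * Real.cos t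
def BB (i : Fin 3) (t : ℝ) : ℝ := Psi (cc i t) (ss i t)
def chi (c : ℝ) : ℝ := 6/5 * c ^ 3 + 2 * c ^ 2 - 1

theorem cc_ss (i : Fin 3) (t : ℝ) : cc i t ^ 2 + ss i t ^ 2 = 1 := by
  have h1 := aabb i
  have h2 := Real.sin_sq_add_cos_sq t
  unfold cc ss
  linear_combination (Real.sin t ^ 2 + Real.cos t ^ 2) * h1 + h2

theorem hasDerivAt_AA (i : Fin 3) (x : ℝ) : HasDerivAt (AA i) (AA' i x) x := by
  have h := (((Real.hasDerivAt_cos x).const_mul (aa i)).add
    ((Real.hasDerivAt_sin x).const_mul (bb i))).const_sub 1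
  refine h.congr_deriv ?_
  unfold AA'
  ring

theorem hasDerivAt_BB (i : Fin 3) (t : ℝ) : HasDerivAt (BB i) (chi (cc i t)) t := by
  have hc : HasDerivAt (cc i) (- ss i t) t := by
    have h := ((Real.hasDerivAt_cos t).const_mul (aa i)).add ((Real.hasDerivAt_sin t).const_mul (bb i))
    refine h.congr_deriv ?_
    unfold ss
    ring
  have hs : HasDerivAt (ss i) (cc i t) t := by
    have h := ((Real.hasDerivAt_sin t).const_mul (aa i)).sub ((Real.hasDerivAt_cos t).const_mul (bb i))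
    refine h.congr_deriv ?_
    unfold cc
    ring
  have h := ((hs.const_mul (6/5)).sub ((hs.pow 3).const_mul (2/5))).add (hs.mul hc)
  refine h.congr_deriv ?_
  have h1 := cc_ss i t
  unfold chi
  push_cast
  linear_combination (6/5 * cc i t + 1) * (-h1)

def FF (q : V4) : ℝ := (1/1000) * ∑ i, AA i q.1 * AA i q.2.1 * BB i q.2.2.2
def gx (q : V4) : ℝ := (1/1000) * ∑ i, AA' i q.1 * AA i q.2.1 * BB i q.2.2.2
def gy (q : V4) : ℝ := (1/1000) * ∑ i, AA i q.1 * AA' i q.2.1 * BB i q.2.2.2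
def gt (q : V4) : ℝ := (1/1000) * ∑ i, AA i q.1 * AA i q.2.1 * chi (cc i q.2.2.2)

theorem ff_cov (q : V4) : ff (cov q) = FF q := by
  simp only [ff, FF, cx, cy, ct, cov, circle_exp_re, circle_exp_im, AA, BB, cc, ss]

theorem hasFDerivAt_FF (q : V4) : HasFDerivAt FF (gx q • l1 + gy q • l2 + gt q • l4) q := by
  have key : ∀ i ∈ (Finset.univ : Finset (Fin 3)),
      HasFDerivAt (fun q : V4 => AA i q.1 * AA i q.2.1 * BB i q.2.2.2)
        ((AA' i q.1 * AA i q.2.1 * BB i q.2.2.2) • l1 + (AA i q.1 * AA' i q.2.1 * BB i q.2.2.2) • l2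
          + (AA i q.1 * AA i q.2.1 * chi (cc i q.2.2.2)) • l4) q := by
    intro i _
    have h1 : HasFDerivAt (AA i ∘ (fun q : V4 => q.1)) (AA' i q.1 • l1) q :=
      (hasDerivAt_AA i q.1).comp_hasFDerivAt q l1.hasFDerivAt
    have h2 : HasFDerivAt (AA i ∘ (fun q : V4 => q.2.1)) (AA' i q.2.1 • l2) q :=
      (hasDerivAt_AA i q.2.1).comp_hasFDerivAt q l2.hasFDerivAt
    have h4 : HasFDerivAt (BB i ∘ (fun q : V4 => q.2.2.2)) (chi (cc i q.2.2.2) • l4) q :=
      (hasDerivAt_BB i q.2.2.2).comp_hasFDerivAt q l4.hasFDerivAt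
    refine ((h1.mul h2).mul h4).congr_fderiv ?_
    refine ContinuousLinearMap.ext fun v => ?_
    simp
    ring
  have h := (HasFDerivAt.fun_sum key).const_mul (1/1000)
  refine h.congr_fderiv ?_
  unfold gx gy gt
  rw [Finset.sum_add_distrib, Finset.sum_add_distrib, ← Finset.sum_smul, ← Finset.sum_smul,
    ← Finset.sum_smul, smul_add, smul_add, smul_smul, smul_smul, smul_smul]

theorem lam_pull (q w : V4) : lam.pull cov q w =
    Real.exp (FF q) * (Real.cos q.2.2.1 * w.1 + Real.sin q.2.2.1 * w.2.1) := by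
  have h1 := ang_cx q w
  have h2 := ang_cy q w
  have h3 : lam.pull cov q w = Real.exp (ff (cov q)) * ((cz (cov q) : ℂ).re *
    ang cx (cov q) (mfderiv 𝓘(ℝ, V4) I4 cov q w) + (cz (cov q) : ℂ).im *
    ang cy (cov q) (mfderiv 𝓘(ℝ, V4) I4 cov q w)) := rfl
  rw [h3, h1, h2, ff_cov]
  simp only [cz, cov, circle_exp_re, circle_exp_im]

theorem al_pull (q w : V4) : al.pull cov q w = (1 / (2 * Real.pi)) * w.2.2.2 := by
  have h1 := ang_ct q w
  have h3 : al.pull cov q w = (1 / (2 * Real.pi)) * ang ct (cov q) (mfderiv 𝓘(ℝ, V4) I4 cov q w) := rfl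
  rw [h3, h1]

theorem fderiv_lam_pull (q v w : V4) : fderiv ℝ (lam.pull cov) q v w =
    Real.exp (FF q) * ((gx q * v.1 + gy q * v.2.1 + gt q * v.2.2.2) *
      (Real.cos q.2.2.1 * w.1 + Real.sin q.2.2.1 * w.2.1) +
      v.2.2.1 * (- Real.sin q.2.2.1 * w.1 + Real.cos q.2.2.1 * w.2.1)) := by
  have hd := (d_pull smooth_lam smooth_cov q).1
  have h0 : fderiv ℝ (fun q => lam.pull cov q w) q v = fderiv ℝ (lam.pull cov) q v w := by
    rw [fderiv_clm_apply hd (by fun_prop)]
    simp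
  rw [← h0]
  have hfun : (fun q => lam.pull cov q w) = fun q : V4 =>
    Real.exp (FF q) * (Real.cos q.2.2.1 * w.1 + Real.sin q.2.2.1 * w.2.1) := by
    funext q
    exact lam_pull q w
  rw [hfun]
  have h1 : HasFDerivAt (fun q : V4 => Real.exp (FF q)) (Real.exp (FF q) • (gx q • l1 + gy q • l2 + gt q • l4)) q :=
    (hasFDerivAt_FF q).exp
  have h2 : HasFDerivAt (fun q : V4 => Real.cos q.2.2.1) (-Real.sin q.2.2.1 • l3) q :=
    (Real.hasDerivAt_cos _).comp_hasFDerivAt q l3.hasFDerivAt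
  have h3 : HasFDerivAt (fun q : V4 => Real.sin q.2.2.1) (Real.cos q.2.2.1 • l3) q :=
    (Real.hasDerivAt_sin _).comp_hasFDerivAt q l3.hasFDerivAt
  have h4 := h1.mul ((h2.mul_const w.1).add (h3.mul_const w.2.1))
  have h5 : fderiv ℝ (fun q : V4 => Real.exp (FF q) * (Real.cos q.2.2.1 * w.1 + Real.sin q.2.2.1 * w.2.1)) q = _ :=
    h4.fderiv
  rw [h5]
  simp [l1, l2, l3, l4]
  ring

/-! ### Elementary estimates -/

theorem cc_le_one (i : Fin 3) (t : ℝ) : cc i t ≤ 1 := by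
  nlinarith [cc_ss i t, sq_nonneg (ss i t), sq_nonneg (cc i t - 1), sq_nonneg (cc i t + 1)]

theorem neg_one_le_cc (i : Fin 3) (t : ℝ) : -1 ≤ cc i t := by
  nlinarith [cc_ss i t, sq_nonneg (ss i t), sq_nonneg (cc i t - 1), sq_nonneg (cc i t + 1)]

theorem ss_le_one (i : Fin 3) (t : ℝ) : ss i t ≤ 1 := by
  nlinarith [cc_ss i t, sq_nonneg (cc i t), sq_nonneg (ss i t - 1), sq_nonneg (ss i t + 1)]

theorem neg_one_le_ss (i : Fin 3) (t : ℝ) : -1 ≤ ss i t := by
  nlinarith [cc_ss i t, sq_nonneg (cc i t), sq_nonneg (ss i t - 1), sq_nonneg (ss i t + 1)]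

theorem AA_eq (i : Fin 3) (x : ℝ) : AA i x = 1 - cc i x := rfl
theorem AA'_eq (i : Fin 3) (x : ℝ) : AA' i x = ss i x := rfl

theorem chi_neg {c : ℝ} (h1 : -1 ≤ c) (h2 : c ≤ 3/5) : chi c < 0 := by
  unfold chi
  rcases le_total 0 c with h | h
  · nlinarith [mul_nonneg h h, mul_nonneg (mul_nonneg h h) h, mul_nonneg h (sub_nonneg.2 h2),
      mul_nonneg (mul_nonneg h h) (sub_nonneg.2 h2)]
  · have h3 : 0 ≤ (1 + c) * (4/5 - 4/5 * c - 6/5 * c ^ 2) :=
      mul_nonneg (by linarith) (by nlinarith)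
    nlinarith

theorem abs_chi_le {c : ℝ} (h1 : -1 ≤ c) (h2 : c ≤ 1) : |chi c| ≤ 3 := by
  have h3 : c ^ 2 ≤ 1 := by nlinarith
  have h4 : -1 ≤ c ^ 3 := by nlinarith [mul_nonneg (sq_nonneg c) (by linarith : (0:ℝ) ≤ 1 + c)]
  have h5 : c ^ 3 ≤ 1 := by nlinarith [mul_nonneg (sq_nonneg c) (by linarith : (0:ℝ) ≤ 1 - c)]
  unfold chi
  rw [abs_le]
  constructor <;> nlinarith [sq_nonneg c]

theorem abs_BB_le (i : Fin 3) (t : ℝ) : |BB i t| ≤ 4 := by
  have h1 := ss_le_one i t
  have h2 := neg_one_le_ss i t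
  have h3 := cc_le_one i t
  have h4 := neg_one_le_cc i t
  have h5 : ss i t ^ 2 ≤ 1 := by nlinarith
  have h6 : -1 ≤ ss i t ^ 3 := by nlinarith [mul_nonneg (sq_nonneg (ss i t)) (by linarith : (0:ℝ) ≤ 1 + ss i t)]
  have h7 : ss i t ^ 3 ≤ 1 := by nlinarith [mul_nonneg (sq_nonneg (ss i t)) (by linarith : (0:ℝ) ≤ 1 - ss i t)]
  have h8 : |ss i t * cc i t| ≤ 1 := by
    rw [abs_mul]
    exact mul_le_one₀ (abs_le.2 ⟨h2, h1⟩) (abs_nonneg _) (abs_le.2 ⟨h4, h3⟩)
  rw [abs_le] at h8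
  unfold BB Psi
  rw [abs_le]
  constructor <;> linarith [h8.1, h8.2]

theorem cc_add_le {i j : Fin 3} (hij : i ≠ j) (t : ℝ) : cc i t + cc j t ≤ 6/5 := by
  have h := Real.sin_sq_add_cos_sq t
  set s := Real.sin t
  set c := Real.cos t
  have key : ∀ u v : ℝ, u ^ 2 + v ^ 2 ≤ (6/5) ^ 2 → u * c + v * s ≤ 6/5 := by
    intro u v huv
    nlinarith [sq_nonneg (u * s - v * c), sq_nonneg (u * c + v * s - 6/5), sq_nonneg (u * c + v * s + 6/5)]
  have hk : (aa i + aa j) ^ 2 + (bb i + bb j) ^ 2 ≤ (6/5) ^ 2 := by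
    revert hij
    fin_cases i <;> fin_cases j <;> simp [aa, bb] <;> norm_num
  have := key _ _ hk
  unfold cc
  linarith

theorem chi_pair {i j : Fin 3} (hij : i ≠ j) (t : ℝ) (hi : 0 ≤ chi (cc i t)) : chi (cc j t) < 0 := by
  have h1 : 3/5 < cc i t := by
    by_contra h
    exact absurd hi (not_le.2 (chi_neg (neg_one_le_cc i t) (not_lt.1 h)))
  have h2 := cc_add_le hij t
  exact chi_neg (neg_one_le_cc j t) (by linarith)

theorem AA_nonneg (i : Fin 3) (x : ℝ) : 0 ≤ AA i x := by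
  rw [AA_eq]; linarith [cc_le_one i x]

theorem AA_pair {i j : Fin 3} (hij : i ≠ j) (x : ℝ) (hi : AA i x = 0) : 0 < AA j x := by
  rw [AA_eq] at *
  have h2 := cc_add_le hij x
  linarith

theorem sum_AA_pos (x y : ℝ) : ∃ i, 0 < AA i x * AA i y := by
  by_contra hcon
  push Not at hcon
  have h0 : ∀ i, AA i x = 0 ∨ AA i y = 0 := by
    intro i
    have := le_antisymm (hcon i) (mul_nonneg (AA_nonneg i x) (AA_nonneg i y))
    exact mul_eq_zero.1 this
  have hx : ∀ i j : Fin 3, i ≠ j → AA i x = 0 → AA j x = 0 → False := fun i j hij h1 h2 =>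
    absurd h2 (AA_pair hij x h1).ne'
  have hy : ∀ i j : Fin 3, i ≠ j → AA i y = 0 → AA j y = 0 → False := fun i j hij h1 h2 =>
    absurd h2 (AA_pair hij y h1).ne'
  have h01 : (0 : Fin 3) ≠ 1 := by decide
  have h02 : (0 : Fin 3) ≠ 2 := by decide
  have h12 : (1 : Fin 3) ≠ 2 := by decide
  rcases h0 0 with a | a <;> rcases h0 1 with b | b <;> rcases h0 2 with c | c
  · exact hx _ _ h01 a b
  · exact hx _ _ h01 a b
  · exact hx _ _ h02 a c
  · exact hy _ _ h12 b c
  · exact hx _ _ h12 b c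
  · exact hy _ _ h02 a c
  · exact hy _ _ h01 a b
  · exact hy _ _ h01 a b

/-- The structure of the zero set of the last partial derivative. -/
theorem zero_set {q : V4} (hq : gt q = 0) :
    ∃ i, 0 ≤ chi (cc i q.2.2.2) ∧ 0 < AA i q.1 ∧ 0 < AA i q.2.1 := by
  have hsum : ∑ i, AA i q.1 * AA i q.2.1 * chi (cc i q.2.2.2) = 0 := by
    unfold gt at hq
    linarith
  have hpos : ∀ i, 0 ≤ AA i q.1 * AA i q.2.1 := fun i => mul_nonneg (AA_nonneg _ _) (AA_nonneg _ _)
  obtain ⟨k, hk⟩ := sum_AA_pos q.1 q.2.1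
  by_cases hall : ∀ i, chi (cc i q.2.2.2) < 0
  · exfalso
    have h1 : ∑ i, AA i q.1 * AA i q.2.1 * chi (cc i q.2.2.2) < 0 := by
      refine Finset.sum_neg' (fun i _ => ?_) ⟨k, Finset.mem_univ _, ?_⟩
      · exact mul_nonpos_of_nonneg_of_nonpos (hpos i) (hall i).le
      · exact mul_neg_of_pos_of_neg hk (hall k)
    linarith
  · push Not at hall
    obtain ⟨i, hi⟩ := hall
    refine ⟨i, hi, ?_⟩
    have hi' : 0 < AA i q.1 * AA i q.2.1 := by
      by_contra hcon
      have hz : AA i q.1 * AA i q.2.1 = 0 := le_antisymm (not_lt.1 hcon) (hpos i)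
      have hki : k ≠ i := by
        rintro rfl
        exact absurd hz hk.ne'
      have h1 : ∑ i, AA i q.1 * AA i q.2.1 * chi (cc i q.2.2.2) < 0 := by
        refine Finset.sum_neg' (fun j _ => ?_) ⟨k, Finset.mem_univ _, ?_⟩
        · by_cases hj : j = i
          · subst hj; rw [hz]; simp
          · exact mul_nonpos_of_nonneg_of_nonpos (hpos j) (chi_pair (Ne.symm hj) _ hi).le
        · exact mul_neg_of_pos_of_neg hk (chi_pair hki.symm _ hi)
      linarith
    have hx0 := AA_nonneg i q.1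
    have hy0 := AA_nonneg i q.2.1
    constructor
    · rcases hx0.lt_or_eq with h | h
      · exact h
      · rw [← h] at hi'; simp at hi'
    · rcases hy0.lt_or_eq with h | h
      · exact h
      · rw [← h] at hi'; simp at hi'

theorem abs_gx_le (q : V4) : |gx q| ≤ 24/1000 := by
  have h : ∀ i ∈ (Finset.univ : Finset (Fin 3)), |AA' i q.1 * AA i q.2.1 * BB i q.2.2.2| ≤ 8 := by
    intro i _
    have h1 : |AA' i q.1| ≤ 1 := abs_le.2 ⟨neg_one_le_ss i _, ss_le_one i _⟩
    have h2 : |AA i q.2.1| ≤ 2 := abs_le.2 ⟨by linarith [AA_nonneg i q.2.1], by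
      rw [AA_eq]; linarith [neg_one_le_cc i q.2.1]⟩
    have h3 := abs_BB_le i q.2.2.2
    rw [abs_mul, abs_mul]
    calc |AA' i q.1| * |AA i q.2.1| * |BB i q.2.2.2| ≤ 1 * 2 * 4 := by gcongr
      _ = 8 := by norm_num
  unfold gx
  rw [abs_mul, abs_of_pos (by norm_num : (0:ℝ) < 1/1000)]
  have h1 := (Finset.abs_sum_le_sum_abs _ _).trans (Finset.sum_le_sum h)
  simp only [Finset.sum_const, Finset.card_univ, Fintype.card_fin, nsmul_eq_mul] at h1
  push_cast at h1
  linarith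

theorem abs_gy_le (q : V4) : |gy q| ≤ 24/1000 := by
  have h : ∀ i ∈ (Finset.univ : Finset (Fin 3)), |AA i q.1 * AA' i q.2.1 * BB i q.2.2.2| ≤ 8 := by
    intro i _
    have h1 : |AA' i q.2.1| ≤ 1 := abs_le.2 ⟨neg_one_le_ss i _, ss_le_one i _⟩
    have h2 : |AA i q.1| ≤ 2 := abs_le.2 ⟨by linarith [AA_nonneg i q.1], by
      rw [AA_eq]; linarith [neg_one_le_cc i q.1]⟩
    have h3 := abs_BB_le i q.2.2.2
    rw [abs_mul, abs_mul]
    calc |AA i q.1| * |AA' i q.2.1| * |BB i q.2.2.2| ≤ 2 * 1 * 4 := by gcongr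
      _ = 8 := by norm_num
  unfold gy
  rw [abs_mul, abs_of_pos (by norm_num : (0:ℝ) < 1/1000)]
  have h1 := (Finset.abs_sum_le_sum_abs _ _).trans (Finset.sum_le_sum h)
  simp only [Finset.sum_const, Finset.card_univ, Fintype.card_fin, nsmul_eq_mul] at h1
  push_cast at h1
  linarith

theorem abs_gt_le (q : V4) : |gt q| ≤ 36/1000 := by
  have h : ∀ i ∈ (Finset.univ : Finset (Fin 3)), |AA i q.1 * AA i q.2.1 * chi (cc i q.2.2.2)| ≤ 12 := by
    intro i _
    have h1 : |AA i q.2.1| ≤ 2 := abs_le.2 ⟨by linarith [AA_nonneg i q.2.1], by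
      rw [AA_eq]; linarith [neg_one_le_cc i q.2.1]⟩
    have h2 : |AA i q.1| ≤ 2 := abs_le.2 ⟨by linarith [AA_nonneg i q.1], by
      rw [AA_eq]; linarith [neg_one_le_cc i q.1]⟩
    have h3 := abs_chi_le (neg_one_le_cc i q.2.2.2) (cc_le_one i q.2.2.2)
    rw [abs_mul, abs_mul]
    calc |AA i q.1| * |AA i q.2.1| * |chi (cc i q.2.2.2)| ≤ 2 * 2 * 3 := by gcongr
      _ = 12 := by norm_num
  unfold gt
  rw [abs_mul, abs_of_pos (by norm_num : (0:ℝ) < 1/1000)]
  have h1 := (Finset.abs_sum_le_sum_abs _ _).trans (Finset.sum_le_sum h)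
  simp only [Finset.sum_const, Finset.card_univ, Fintype.card_fin, nsmul_eq_mul] at h1
  push_cast at h1
  linarith

/-! ### The exact lcs structure -/

theorem d_lam (q v w : V4) :
    lam.d (cov q) (mfderiv 𝓘(ℝ, V4) I4 cov q v) (mfderiv 𝓘(ℝ, V4) I4 cov q w) =
    Real.exp (FF q) * (((gx q * v.1 + gy q * v.2.1 + gt q * v.2.2.2) *
      (Real.cos q.2.2.1 * w.1 + Real.sin q.2.2.1 * w.2.1) +
      v.2.2.1 * (- Real.sin q.2.2.1 * w.1 + Real.cos q.2.2.1 * w.2.1)) -
      ((gx q * w.1 + gy q * w.2.1 + gt q * w.2.2.2) *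
      (Real.cos q.2.2.1 * v.1 + Real.sin q.2.2.1 * v.2.1) +
      w.2.2.1 * (- Real.sin q.2.2.1 * v.1 + Real.cos q.2.2.1 * v.2.1))) := by
  rw [(d_pull smooth_lam smooth_cov q).2 v w, fderiv_lam_pull, fderiv_lam_pull]
  ring

theorem d_al (p : T4) (v w : TangentSpace I4 p) : al.d p v w = 0 := by
  obtain ⟨q, rfl⟩ := cov_surjective p
  obtain ⟨v, rfl⟩ := mfderiv_cov_surjective q v
  obtain ⟨w, rfl⟩ := mfderiv_cov_surjective q w
  rw [(d_pull smooth_al smooth_cov q).2 v w]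
  have hc : al.pull cov = fun _ => (1 / (2 * Real.pi)) • l4 := by
    funext q
    refine ContinuousLinearMap.ext fun w => ?_
    rw [al_pull]
    rfl
  have h0 : fderiv ℝ (fun _ : V4 => (1 / (2 * Real.pi)) • l4) q = 0 := by simp
  rw [hc, h0]
  change (0 : ℝ) - 0 = 0
  simp

theorem inv_two_pi_gt : (36/1000 : ℝ) < 1 / (2 * Real.pi) := by
  have h1 := Real.pi_lt_four
  have h2 := Real.pi_pos
  rw [lt_div_iff₀ (by positivity)]
  nlinarith

/-- Linear algebra of the form at a point: the three test vectors. -/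
theorem kernel_eqs {q v : V4}
    (h : ∀ w : V4, lam.d (cov q) (mfderiv 𝓘(ℝ, V4) I4 cov q v) (mfderiv 𝓘(ℝ, V4) I4 cov q w) = 0)
    (hpos : 0 < Real.cos q.2.2.1 * v.1 + Real.sin q.2.2.1 * v.2.1) :
    gt q = 0 ∧
    v.1 = (Real.cos q.2.2.1 * v.1 + Real.sin q.2.2.1 * v.2.1) * Real.cos q.2.2.1 ∧
    v.2.1 = (Real.cos q.2.2.1 * v.1 + Real.sin q.2.2.1 * v.2.1) * Real.sin q.2.2.1 ∧
    v.2.2.1 = (Real.cos q.2.2.1 * v.1 + Real.sin q.2.2.1 * v.2.1) *
      (- Real.sin q.2.2.1 * gx q + Real.cos q.2.2.1 * gy q) := by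
  have hexp := Real.exp_pos (FF q)
  have hcs := Real.sin_sq_add_cos_sq q.2.2.1
  set C := Real.cos q.2.2.1
  set S := Real.sin q.2.2.1
  have ht := h (0, 0, 0, 1)
  have hz := h (0, 0, 1, 0)
  have hw := h (-S, C, 0, 0)
  rw [d_lam] at ht hz hw
  simp only [mul_eq_zero, hexp.ne', false_or] at ht hz hw
  simp only [mul_zero, mul_one, zero_add, add_zero, zero_mul, one_mul, zero_sub] at ht hz hw
  change _ = (0 : ℝ) at ht
  have h1 : gt q = 0 := by
    have : gt q * (C * v.1 + S * v.2.1) = 0 := by linarith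
    rcases mul_eq_zero.1 this with h | h
    · exact h
    · exact absurd h hpos.ne'
  have h2 : - S * v.1 + C * v.2.1 = 0 := by linarith
  refine ⟨h1, ?_, ?_, ?_⟩
  · linear_combination (-S) * h2 - v.1 * hcs
  · linear_combination (C) * h2 - v.2.1 * hcs
  · rw [h1] at hw
    linear_combination hw - v.2.2.1 * hcs 

theorem nondeg (p : T4) (v : TangentSpace I4 p)
    (h : ∀ w : TangentSpace I4 p, lcsForm lam al p v w = 0) :
    v = 0 := by
  obtain ⟨q, rfl⟩ := cov_surjective p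
  obtain ⟨v, rfl⟩ := mfderiv_cov_surjective q v
  have hexp := Real.exp_pos (FF q)
  have hcs := Real.sin_sq_add_cos_sq q.2.2.1
  have key : ∀ w : V4, Real.exp (FF q) * (((gx q * v.1 + gy q * v.2.1 + gt q * v.2.2.2) *
      (Real.cos q.2.2.1 * w.1 + Real.sin q.2.2.1 * w.2.1) +
      v.2.2.1 * (- Real.sin q.2.2.1 * w.1 + Real.cos q.2.2.1 * w.2.1)) -
      ((gx q * w.1 + gy q * w.2.1 + gt q * w.2.2.2) *
      (Real.cos q.2.2.1 * v.1 + Real.sin q.2.2.1 * v.2.1) +
      w.2.2.1 * (- Real.sin q.2.2.1 * v.1 + Real.cos q.2.2.1 * v.2.1)) -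
      ((1 / (2 * Real.pi)) * v.2.2.2 * (Real.cos q.2.2.1 * w.1 + Real.sin q.2.2.1 * w.2.1) -
       (1 / (2 * Real.pi)) * w.2.2.2 * (Real.cos q.2.2.1 * v.1 + Real.sin q.2.2.1 * v.2.1))) = 0 := by
    intro w
    have h1 := h (mfderiv 𝓘(ℝ, V4) I4 cov q w)
    unfold lcsForm at h1
    have e0 : lam.d (cov q) (mfderiv 𝓘(ℝ, V4) I4 cov q v) (mfderiv 𝓘(ℝ, V4) I4 cov q w) = _ :=
      d_lam q v w
    have e1 : al (cov q) (mfderiv 𝓘(ℝ, V4) I4 cov q v) = _ := al_pull q v
    have e2 : al (cov q) (mfderiv 𝓘(ℝ, V4) I4 cov q w) = _ := al_pull q w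
    have e3 : lam (cov q) (mfderiv 𝓘(ℝ, V4) I4 cov q v) = _ := lam_pull q v
    have e4 : lam (cov q) (mfderiv 𝓘(ℝ, V4) I4 cov q w) = _ := lam_pull q w
    rw [e0, e1, e2, e3, e4] at h1
    linear_combination h1
  have hb := abs_le.1 (abs_gt_le q)
  have hpi := inv_two_pi_gt
  set k := 1 / (2 * Real.pi)
  set C := Real.cos q.2.2.1
  set S := Real.sin q.2.2.1
  have ht := key (0, 0, 0, 1)
  have hz := key (0, 0, 1, 0)
  have hw := key (-S, C, 0, 0)
  have hu := key (C, S, 0, 0)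
  simp only [mul_eq_zero, hexp.ne', false_or] at ht hz hw hu
  simp only [mul_zero, mul_one, zero_add, add_zero, zero_mul, one_mul, sub_zero, zero_sub] at ht hz hw hu
  have h1 : C * v.1 + S * v.2.1 = 0 := by
    have : (k - gt q) * (C * v.1 + S * v.2.1) = 0 := by linarith
    rcases mul_eq_zero.1 this with h | h
    · linarith
    · exact h
  have h2 : - S * v.1 + C * v.2.1 = 0 := by linarith
  have h3 : v.1 = 0 := by linear_combination C * h1 - S * h2 - v.1 * hcs
  have h4 : v.2.1 = 0 := by linear_combination S * h1 + C * h2 - v.2.1 * hcs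
  have h5 : v.2.2.1 = 0 := by
    rw [h1] at hw
    linear_combination hw - v.2.2.1 * hcs
  have h6 : v.2.2.2 = 0 := by
    have h7 : (gt q - k) * v.2.2.2 = 0 := by
      rw [h3, h4, h5] at hu
      linear_combination hu - (gt q - k) * v.2.2.2 * hcs
    rcases mul_eq_zero.1 h7 with h | h
    · linarith
    · exact h
  have hv : v = 0 := Prod.ext h3 (Prod.ext h4 (Prod.ext h5 h6))
  rw [hv, map_zero]

theorem lcs : IsExactLCS lam al := ⟨smooth_lam, smooth_al, d_al, nondeg⟩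


/-! ### Curves -/

/-- Derivative data of a circle valued function along a curve. -/
theorem curve_data {c : T4 → Circle} (hc : ContMDiff I4 (𝓡 1) ∞ c) {o : ℝ → T4} {n : ℕ∞ω}
    (ho : ContMDiff 𝓘(ℝ, ℝ) I4 n o) (hn : 1 ≤ n) (t : ℝ) :
    HasDerivAt (fun t => (c (o t) : ℂ).re)
      (-(c (o t) : ℂ).im * ang c (o t) (mfderiv 𝓘(ℝ, ℝ) I4 o t (1 : ℝ))) t ∧
    HasDerivAt (fun t => (c (o t) : ℂ).im)
      ((c (o t) : ℂ).re * ang c (o t) (mfderiv 𝓘(ℝ, ℝ) I4 o t (1 : ℝ))) t := by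
  have hn0 : n ≠ 0 := by
    rintro rfl
    simp at hn
  have ho1 : ContMDiff 𝓘(ℝ, ℝ) I4 1 o := ho.of_le hn
  have hre : ContDiff ℝ 1 (fun t => (c (o t) : ℂ).re) :=
    contMDiff_iff_contDiff.1 (((contMDiff_re hc).of_le (by simp)).comp ho1)
  have him : ContDiff ℝ 1 (fun t => (c (o t) : ℂ).im) :=
    contMDiff_iff_contDiff.1 (((contMDiff_im hc).of_le (by simp)).comp ho1)
  have hre' := (hre.differentiable (by simp) t).hasDerivAt
  have him' := (him.differentiable (by simp) t).hasDerivAt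
  have hang := ang_mfderiv hc ((ho t).mdifferentiableAt hn0) (1 : ℝ)
  have hsq : ∀ t, (c (o t) : ℂ).re ^ 2 + (c (o t) : ℂ).im ^ 2 = 1 := by
    intro t
    have := Circle.normSq_coe (c (o t))
    rw [Complex.normSq_apply] at this
    nlinarith
  have hz : (c (o t) : ℂ).re * deriv (fun t => (c (o t) : ℂ).re) t +
      (c (o t) : ℂ).im * deriv (fun t => (c (o t) : ℂ).im) t = 0 := by
    have h1 := (hre'.pow 2).add (him'.pow 2)
    have h2 : (fun t => (c (o t) : ℂ).re) ^ 2 + (fun t => (c (o t) : ℂ).im) ^ 2 = fun _ => (1 : ℝ) := by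
      funext s
      exact hsq s
    rw [h2] at h1
    have h3 := h1.unique (hasDerivAt_const t (1 : ℝ))
    push_cast at h3
    nlinarith
  have e1 : fderiv ℝ (fun y => (c (o y) : ℂ).im) t 1 = deriv (fun t => (c (o t) : ℂ).im) t := rfl
  have e2 : fderiv ℝ (fun y => (c (o y) : ℂ).re) t 1 = deriv (fun t => (c (o t) : ℂ).re) t := rfl
  rw [e1, e2] at hang
  have hs := hsq t
  constructor
  · refine hre'.congr_deriv ?_
    rw [hang]
    linear_combination (-deriv (fun t => (c (o t) : ℂ).re) t) * hs + (c (o t) : ℂ).re * hz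
  · refine him'.congr_deriv ?_
    rw [hang]
    linear_combination (-deriv (fun t => (c (o t) : ℂ).im) t) * hs + (c (o t) : ℂ).im * hz


theorem winding {φ : ℝ → ℝ} (hφ : Continuous φ) {c : ℝ → ℂ}
    (hc : ∀ t, HasDerivAt c (Complex.I * φ t * c t) t) (h01 : c 1 = c 0) (hne : c 0 ≠ 0) :
    ∃ n : ℤ, ∫ t in (0 : ℝ)..1, φ t = n * (2 * Real.pi) := by
  set W : ℝ → ℝ := fun t => ∫ s in (0 : ℝ)..t, φ s with hW
  have hWd : ∀ t, HasDerivAt W (φ t) t := fun t =>
    intervalIntegral.integral_hasDerivAt_right (hφ.intervalIntegrable _ _)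
      (hφ.stronglyMeasurableAtFilter _ _) hφ.continuousAt
  have hWc : ∀ t, HasDerivAt (fun t => (W t : ℂ)) (φ t : ℂ) t := fun t => (hWd t).ofReal_comp
  have hE : ∀ t, HasDerivAt (fun t => Complex.exp (-(Complex.I * W t)))
      (Complex.exp (-(Complex.I * W t)) * (-(Complex.I * φ t))) t := fun t =>
    (((hWc t).const_mul Complex.I).neg).cexp
  have hu : ∀ t, HasDerivAt (fun t => c t * Complex.exp (-(Complex.I * W t))) 0 t := by
    intro t
    refine ((hc t).mul (hE t)).congr_deriv ?_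
    ring
  have hconst : c 1 * Complex.exp (-(Complex.I * W 1)) = c 0 * Complex.exp (-(Complex.I * W 0)) := by
    have hd : Differentiable ℝ (fun t => c t * Complex.exp (-(Complex.I * W t))) :=
      fun t => (hu t).differentiableAt
    exact is_const_of_deriv_eq_zero hd (fun t => (hu t).deriv) 1 0
  have hW0 : W 0 = 0 := by simp [hW]
  rw [h01, hW0] at hconst
  have h1 : Complex.exp (-(Complex.I * W 1)) = 1 := by
    have := mul_left_cancel₀ hne hconst
    simpa using this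
  rw [Complex.exp_eq_one_iff] at h1
  obtain ⟨n, hn⟩ := h1
  refine ⟨-n, ?_⟩
  have h2 : (W 1 : ℂ) = ((-n : ℤ) : ℂ) * (2 * Real.pi) := by
    have h3 : Complex.I * ((W 1 : ℂ) + n * (2 * Real.pi)) = 0 := by
      linear_combination -hn
    have h4 := (mul_eq_zero.1 h3).resolve_left Complex.I_ne_zero
    push_cast
    linear_combination h4
  exact_mod_cast h2

theorem rational_al : IsRational al := by
  intro γ hγ hper
  set φ : ℝ → ℝ := fun t => ang ct (γ t) (mfderiv 𝓘(ℝ, ℝ) I4 γ t (1 : ℝ)) with hφ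
  have hre : ContDiff ℝ 1 (fun t => (ct (γ t) : ℂ).re) :=
    contMDiff_iff_contDiff.1 (((contMDiff_re smooth_ct).of_le (by simp)).comp hγ)
  have him : ContDiff ℝ 1 (fun t => (ct (γ t) : ℂ).im) :=
    contMDiff_iff_contDiff.1 (((contMDiff_im smooth_ct).of_le (by simp)).comp hγ)
  have hcont : Continuous φ := by
    have h1 : φ = fun t => (ct (γ t) : ℂ).re * deriv (fun t => (ct (γ t) : ℂ).im) t -
        (ct (γ t) : ℂ).im * deriv (fun t => (ct (γ t) : ℂ).re) t := by
      funext t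
      exact ang_mfderiv smooth_ct ((hγ t).mdifferentiableAt (by simp)) (1 : ℝ)
    rw [h1]
    exact (hre.continuous.mul (him.continuous_deriv le_rfl)).sub
      (him.continuous.mul (hre.continuous_deriv le_rfl))
  have hc : ∀ t, HasDerivAt (fun t => (ct (γ t) : ℂ)) (Complex.I * φ t * (ct (γ t) : ℂ)) t := by
    intro t
    obtain ⟨h1, h2⟩ := curve_data smooth_ct hγ le_rfl t
    have h3 := h1.ofReal_comp.add (h2.ofReal_comp.mul_const Complex.I)
    have h4 : (fun t => (((ct (γ t) : ℂ).re : ℝ) : ℂ)) + (fun t => (((ct (γ t) : ℂ).im : ℝ) : ℂ) * Complex.I)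
        = fun t => (ct (γ t) : ℂ) := by
      funext s
      exact Complex.re_add_im _
    rw [h4] at h3
    refine h3.congr_deriv ?_
    conv_rhs => rw [← Complex.re_add_im (ct (γ t) : ℂ)]
    push_cast
    linear_combination (-((ct (γ t) : ℂ).im : ℂ) * φ t) * Complex.I_sq
  obtain ⟨n, hn⟩ := winding hcont hc (by have := hper 0; rw [zero_add] at this; simp [this])
    (Circle.coe_ne_zero _)
  refine ⟨n, ?_⟩
  have h5 : period al γ = ∫ t in (0 : ℝ)..1, (1 / (2 * Real.pi)) * φ t := rfl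
  rw [h5, intervalIntegral.integral_const_mul, hn]
  have := Real.pi_pos
  push_cast
  field_simp


/-- `cos` of the difference of the angle of a point of the circle and the `i`-th angle. -/
def dot (i : Fin 3) (z : Circle) : ℝ := aa i * (z : ℂ).re + bb i * (z : ℂ).im

theorem dot_exp (i : Fin 3) (t : ℝ) : dot i (Circle.exp t) = cc i t := by
  simp only [dot, cc, circle_exp_re, circle_exp_im]

theorem local_kernel (p : T4) (u : TangentSpace I4 p)
    (hu : u ∈ reebCone lam p) :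
    ∃ a g₁ g₂ : ℝ, 0 < a ∧ |g₁| ≤ 24/1000 ∧ |g₂| ≤ 24/1000 ∧
      ang cx p u = a * (cz p : ℂ).re ∧ ang cy p u = a * (cz p : ℂ).im ∧
      ang cz p u = a * (-(cz p : ℂ).im * g₁ + (cz p : ℂ).re * g₂) ∧
      ∃ i, 0 ≤ chi (dot i (ct p)) ∧ dot i (cx p) < 1 ∧ dot i (cy p) < 1 := by
  obtain ⟨hker, hpos⟩ := hu
  obtain ⟨q, rfl⟩ := cov_surjective p
  obtain ⟨v, rfl⟩ := mfderiv_cov_surjective q u
  have hexp := Real.exp_pos (FF q)
  have e3 : lam (cov q) (mfderiv 𝓘(ℝ, V4) I4 cov q v) = _ := lam_pull q v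
  rw [e3] at hpos
  have ha : 0 < Real.cos q.2.2.1 * v.1 + Real.sin q.2.2.1 * v.2.1 :=
    (mul_pos_iff_of_pos_left hexp).1 hpos
  obtain ⟨h1, h2, h3, h4⟩ := kernel_eqs (q := q) (v := v) (fun w => hker _) ha
  obtain ⟨i, hi, hix, hiy⟩ := zero_set h1
  have hzre : (cz (cov q) : ℂ).re = Real.cos q.2.2.1 := by simp only [cz, cov, circle_exp_re]
  have hzim : (cz (cov q) : ℂ).im = Real.sin q.2.2.1 := by simp only [cz, cov, circle_exp_im]
  refine ⟨_, gx q, gy q, ha, abs_gx_le q, abs_gy_le q, ?_, ?_, ?_, i, ?_, ?_, ?_⟩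
  · rw [hzre]
    exact (ang_cx q v).trans h2
  · rw [hzim]
    exact (ang_cy q v).trans h3
  · rw [hzre, hzim]
    exact (ang_cz q v).trans h4
  · have : dot i (ct (cov q)) = cc i q.2.2.2 := dot_exp i _
    rw [this]
    exact hi
  · have : dot i (cx (cov q)) = cc i q.1 := dot_exp i _
    rw [this]
    rw [AA_eq] at hix
    linarith
  · have : dot i (cy (cov q)) = cc i q.2.1 := dot_exp i _
    rw [this]
    rw [AA_eq] at hiy
    linarith

theorem dot_pair {i j : Fin 3} (hij : i ≠ j) (z : Circle) (hi : 0 ≤ chi (dot i z)) :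
    chi (dot j z) < 0 := by
  obtain ⟨t, rfl⟩ := Circle.exp_surjective z
  rw [dot_exp] at *
  exact chi_pair hij t hi

/-- A branch of the angle, centred at the antipode of the `i`-th point. -/
def branch (i : Fin 3) (z : Circle) : ℝ :=
  Complex.arg (-((z : ℂ) * (⟨aa i, -bb i⟩ : ℂ)))

theorem abs_branch_le (i : Fin 3) (z : Circle) : |branch i z| ≤ Real.pi := Complex.abs_arg_le_pi _

theorem hasDerivAt_branch {c : T4 → Circle} (hc : ContMDiff I4 (𝓡 1) ∞ c) {o : ℝ → T4} {n : ℕ∞ω}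
    (ho : ContMDiff 𝓘(ℝ, ℝ) I4 n o) (hn : 1 ≤ n) (t : ℝ) {i : Fin 3} (hi : dot i (c (o t)) < 1) :
    HasDerivAt (fun t => branch i (c (o t))) (ang c (o t) (mfderiv 𝓘(ℝ, ℝ) I4 o t (1 : ℝ))) t := by
  obtain ⟨h1, h2⟩ := curve_data hc ho hn t
  set φ := ang c (o t) (mfderiv 𝓘(ℝ, ℝ) I4 o t (1 : ℝ)) with hφ
  have h3 := h1.ofReal_comp.add (h2.ofReal_comp.mul_const Complex.I)
  have h4 : (fun t => (((c (o t) : ℂ).re : ℝ) : ℂ)) + (fun t => (((c (o t) : ℂ).im : ℝ) : ℂ) * Complex.I)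
      = fun t => (c (o t) : ℂ) := by
    funext s
    exact Complex.re_add_im _
  rw [h4] at h3
  have h5 : HasDerivAt (fun t => (c (o t) : ℂ)) (Complex.I * φ * (c (o t) : ℂ)) t := by
    refine h3.congr_deriv ?_
    conv_rhs => rw [← Complex.re_add_im (c (o t) : ℂ)]
    push_cast
    linear_combination (-((c (o t) : ℂ).im : ℂ) * φ) * Complex.I_sq
  have h6 := (h5.mul_const (⟨aa i, -bb i⟩ : ℂ)).neg
  set z : ℂ := (c (o t) : ℂ) with hz
  have hab := aabb i
  have hnorm : z.re ^ 2 + z.im ^ 2 = 1 := by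
    have := Circle.normSq_coe (c (o t))
    rw [Complex.normSq_apply] at this
    nlinarith
  have hsl : -(z * (⟨aa i, -bb i⟩ : ℂ)) ∈ Complex.slitPlane := by
    rw [Complex.mem_slitPlane_iff]
    simp only [Complex.neg_re, Complex.mul_re, Complex.neg_im, Complex.mul_im]
    by_contra hcon
    push Not at hcon
    obtain ⟨hc1, hc2⟩ := hcon
    have hdot : aa i * z.re + bb i * z.im < 1 := hi
    have h8 : (aa i * z.re + bb i * z.im) ^ 2 = 1 := by
      have h9 : (aa i * z.re + bb i * z.im) ^ 2 + (z.re * -bb i + z.im * aa i) ^ 2 = 1 := by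
        linear_combination (z.re ^ 2 + z.im ^ 2) * hab + hnorm
      have h10 : z.re * -bb i + z.im * aa i = 0 := by linarith
      rw [h10] at h9
      linarith
    nlinarith
  have h7 := h6.clog_real hsl
  have h8 : HasDerivAt (fun t => (Complex.log (-((c (o t) : ℂ) * (⟨aa i, -bb i⟩ : ℂ)))).im) _ t :=
    (Complex.imCLM.hasFDerivAt.comp_hasDerivAt t h7)
  simp only [Complex.log_im] at h8
  refine h8.congr_deriv ?_
  have hne : -(z * (⟨aa i, -bb i⟩ : ℂ)) ≠ 0 := Complex.slitPlane_ne_zero hsl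
  have h9 : -(Complex.I * φ * z * (⟨aa i, -bb i⟩ : ℂ)) / (-(z * (⟨aa i, -bb i⟩ : ℂ))) = Complex.I * φ := by
    rw [div_eq_iff hne]
    ring
  simp only [Pi.neg_apply]
  rw [h9]
  simp

theorem no_reeb (o : ℝ → T4) (ho : IsReebCurve lam o) : False := by
  obtain ⟨hsm, hper, hcone⟩ := ho
  have hloc := fun t => local_kernel (o t) (velocity o t) (hcone t)
  have hcont : Continuous fun t => (ct (o t) : ℂ) :=
    (contMDiff_coe_circle (n := ∞)).continuous.comp (smooth_ct.continuous.comp hsm.continuous)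
  have hchi : ∀ i, Continuous fun t => chi (dot i (ct (o t))) := by
    intro i
    unfold chi dot
    have h1 : Continuous fun t => (ct (o t) : ℂ).re := Complex.continuous_re.comp hcont
    have h2 : Continuous fun t => (ct (o t) : ℂ).im := Complex.continuous_im.comp hcont
    fun_prop
  -- a single index works for the whole curve
  obtain ⟨a₀, _, _, _, _, _, _, _, _, i, hi, _, _⟩ := hloc 0
  have hclopen : IsClopen {t | 0 ≤ chi (dot i (ct (o t)))} := by
    refine ⟨isClosed_le continuous_const (hchi i), ?_⟩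
    have : {t | 0 ≤ chi (dot i (ct (o t)))} =
        {t | ∀ j, j ≠ i → chi (dot j (ct (o t))) < 0} := by
      ext t
      constructor
      · intro ht j hj
        exact dot_pair hj.symm _ ht
      · intro ht
        obtain ⟨_, _, _, _, _, _, _, _, _, k, hk, _, _⟩ := hloc t
        by_cases hki : k = i
        · subst hki; exact hk
        · exact absurd hk (not_le.2 (ht k hki))
    rw [this]
    have h2 : {t | ∀ j, j ≠ i → chi (dot j (ct (o t))) < 0} =
        ⋂ j : {j : Fin 3 // j ≠ i}, {t | chi (dot j.1 (ct (o t))) < 0} := by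
      ext t; simp
    rw [h2]
    exact isOpen_iInter_of_finite fun j => isOpen_lt (hchi j.1) continuous_const
  have huniv : {t | 0 ≤ chi (dot i (ct (o t)))} = univ := by
    rcases isClopen_iff.1 hclopen with h | h
    · exact absurd hi (by
        have : (0 : ℝ) ∉ {t | 0 ≤ chi (dot i (ct (o t)))} := by rw [h]; simp
        exact this)
    · exact h
  have hall : ∀ t, dot i (cx (o t)) < 1 ∧ dot i (cy (o t)) < 1 := by
    intro t
    have ht : 0 ≤ chi (dot i (ct (o t))) := by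
      have : t ∈ {t | 0 ≤ chi (dot i (ct (o t)))} := by rw [huniv]; trivial
      exact this
    obtain ⟨_, _, _, _, _, _, _, _, _, k, hk, hkx, hky⟩ := hloc t
    have hki : k = i := by
      by_contra hne
      exact absurd ht (not_le.2 (dot_pair hne _ hk))
    subst hki
    exact ⟨hkx, hky⟩
  -- the monotone quantity
  set G : ℝ → ℝ := fun t => branch i (cx (o t)) * (cz (o t) : ℂ).re +
    branch i (cy (o t)) * (cz (o t) : ℂ).im with hG
  have h1inf : (1 : ℕ∞ω) ≤ ∞ := by simp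
  have hGd : ∀ t, ∃ g, 0 < g ∧ HasDerivAt G g t := by
    intro t
    have hX := hasDerivAt_branch smooth_cx hsm h1inf t (hall t).1
    have hY := hasDerivAt_branch smooth_cy hsm h1inf t (hall t).2
    obtain ⟨hzr, hzi⟩ := curve_data smooth_cz hsm h1inf t
    obtain ⟨a, g₁, g₂, ha, hg₁, hg₂, hax, hay, haz, -⟩ := hloc t
    rw [show ang cx (o t) (mfderiv 𝓘(ℝ, ℝ) I4 o t (1 : ℝ)) = _ from hax] at hX
    rw [show ang cy (o t) (mfderiv 𝓘(ℝ, ℝ) I4 o t (1 : ℝ)) = _ from hay] at hY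
    rw [show ang cz (o t) (mfderiv 𝓘(ℝ, ℝ) I4 o t (1 : ℝ)) = _ from haz] at hzr hzi
    refine ⟨_, ?_, (hX.mul hzr).add (hY.mul hzi)⟩
    have hnorm : (cz (o t) : ℂ).re ^ 2 + (cz (o t) : ℂ).im ^ 2 = 1 := by
      have := Circle.normSq_coe (cz (o t))
      rw [Complex.normSq_apply] at this
      nlinarith
    set r := (cz (o t) : ℂ).re
    set s := (cz (o t) : ℂ).im
    have hbx : |branch i (cx (o t))| ≤ 4 := (abs_branch_le _ _).trans Real.pi_lt_four.le
    have hby : |branch i (cy (o t))| ≤ 4 := (abs_branch_le _ _).trans Real.pi_lt_four.le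
    set X := branch i (cx (o t))
    set Y := branch i (cy (o t))
    have hr : |r| ≤ 1 := abs_le_one_iff_mul_self_le_one.2 (by nlinarith [sq_nonneg s])
    have hs : |s| ≤ 1 := abs_le_one_iff_mul_self_le_one.2 (by nlinarith [sq_nonneg r])
    have hP : |(-s * g₁ + r * g₂)| ≤ 48/1000 := by
      calc |(-s * g₁ + r * g₂)| ≤ |-s * g₁| + |r * g₂| := abs_add_le _ _
        _ = |s| * |g₁| + |r| * |g₂| := by rw [abs_mul, abs_mul, abs_neg]
        _ ≤ 1 * (24/1000) + 1 * (24/1000) := by gcongr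
        _ = 48/1000 := by norm_num
    have hQ : |(-s * X + r * Y)| ≤ 8 := by
      calc |(-s * X + r * Y)| ≤ |-s * X| + |r * Y| := abs_add_le _ _
        _ = |s| * |X| + |r| * |Y| := by rw [abs_mul, abs_mul, abs_neg]
        _ ≤ 1 * 4 + 1 * 4 := by gcongr
        _ = 8 := by norm_num
    have hPQ : |(-s * g₁ + r * g₂) * (-s * X + r * Y)| ≤ 48/1000 * 8 := by
      rw [abs_mul]
      gcongr
    have hPQ' := (abs_le.1 hPQ).1
    have : a * r * r + X * (-s * (a * (-s * g₁ + r * g₂))) + (a * s * s + Y * (r * (a * (-s * g₁ + r * g₂))))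
        = a * (1 + (-s * g₁ + r * g₂) * (-s * X + r * Y)) := by
      linear_combination a * hnorm
    rw [this]
    apply mul_pos ha
    linarith
  have hmono : StrictMono G := by
    apply strictMono_of_deriv_pos
    intro t
    obtain ⟨g, hg, hgd⟩ := hGd t
    rw [hgd.deriv]
    exact hg
  have h01 : G 0 < G 1 := hmono one_pos
  have hG01 : G 1 = G 0 := by
    have := hper 0
    rw [zero_add] at this
    simp only [hG, this]
  linarith

theorem closedManifold_T4 : IsClosedManifold I4 T4 4 :=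
  ⟨inferInstance, inferInstance, inferInstance, inferInstance, inferInstance, inferInstance,
    by simp⟩

/-- **Main theorem.** There are a closed connected smooth manifold `M` of dimension `4` (the
four-torus) and an exact lcs structure `(lam, al)` on `M` with `al` rational which has no Reeb
curve. -/
theorem result : ∃ (E : Type) (_ : NormedAddCommGroup E) (_ : NormedSpace ℝ E)
    (H : Type) (_ : TopologicalSpace H) (I : ModelWithCorners ℝ E H)
    (M : Type) (_ : TopologicalSpace M) (_ : ChartedSpace H M),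
    IsClosedManifold I M 4 ∧
    ∃ lam al : OneForm I M, IsExactLCS lam al ∧ IsRational al ∧
      ¬ ∃ o : ℝ → M, IsReebCurve lam o :=
  ⟨_, _, _, _, _, I4, T4, _, _, closedManifold_T4, lam, al, lcs, rational_al,
    fun ⟨o, ho⟩ => no_reeb o ho⟩

end

end Pool.Agent.Results.MP_910a86_gt.TorusCounterexample
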